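import Mathlib

namespace Pool.Agent.Results.MP_75e066_al.Counter

/-- The product `PQ` of two subsets under a multivalued operation `m`. -/
def setMul {H : Type} (m : H → H → Set H) (P Q : Set H) : Set H :=
  {x | ∃ p ∈ P, ∃ q ∈ Q, x ∈ m p q}

/-- A hypergroup: axioms (H1), (H2), (H3). -/
structure Hypergroup (H : Type) where
  mul : H → H → Set H
  one : H
  star : H → H
  h1 : ∀ p q r, setMul mul {p} (mul q r) = setMul mul (mul p q) {r}
  h2 : ∀ s, mul s one = {s}
  h3 : ∀ p q r, r ∈ mul p q → q ∈ mul (star p) r ∧ p ∈ mul r (star q)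

namespace Hypergroup

variable {H : Type} (G : Hypergroup H)

/-- `F` is nonempty and `F^* F ⊆ F`. -/
def Closed (F : Set H) : Prop := F.Nonempty ∧ setMul G.mul (G.star '' F) F ⊆ F

/-- `F h ⊆ h F` for all `h ∈ E`. -/
def NormalIn (F E : Set H) : Prop := ∀ h ∈ E, setMul G.mul F {h} ⊆ setMul G.mul {h} F

/-- `h^* F h ⊆ F` for all `h ∈ E`. -/
def StronglyNormalIn (F E : Set H) : Prop :=
  ∀ h ∈ E, setMul G.mul (setMul G.mul {G.star h} F) {h} ⊆ F

/-- A chain of closed subsets `F = F_0 ⊆ ⋯ ⊆ F_n = H`, `n ≥ 1`, with `R F_i F_{i+1}`. -/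
def ChainTo (R : Set H → Set H → Prop) (F : Set H) : Prop :=
  ∃ (n : ℕ) (c : ℕ → Set H), 1 ≤ n ∧ c 0 = F ∧ c n = Set.univ ∧ (∀ i ≤ n, G.Closed (c i)) ∧
    ∀ i < n, c i ⊆ c (i + 1) ∧ R (c i) (c (i + 1))

/-- `h^F = F h F`. -/
def dc (F : Set H) (h : H) : Set H := setMul G.mul (setMul G.mul F {h}) F

/-- The product `a^F · b^F = {x^F : x ∈ a F b}` of the quotient `H // F`. -/
def qmul (F : Set H) (a b : H) : Set (Set H) :=
  G.dc F '' setMul G.mul (setMul G.mul {a} F) {b}

/-- The upper central series: `Z_0 = {1}`, and `h ∈ Z_{n+1}` iff `h^{Z_n}` lies in the centre of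
`H // Z_n`. -/
def ucs : ℕ → Set H
  | 0 => {G.one}
  | n + 1 => {h | (∀ x, G.qmul (ucs n) h x = G.qmul (ucs n) x h) ∧
      G.qmul (ucs n) (G.star h) h = {G.dc (ucs n) G.one}}

end Hypergroup

def row (p q : ℕ) : ℕ :=
  (3059779741685950181006122265056682191401206942300717944799976641589136838993258504843125260913627715523828404793325054218623866640673261509114700132664443411295539705653154747865567544743970890965121297747333536970093361449978263780446248012144874498923182730585925787354709536035027421415855704418415670106748530511352697449511872517222684147529789381616859709363962557088146207899280787941372951288965621690699960402109935852414173630319209386002125819922921073669773573634022917060887751613130634594724152505017959164886931384487853965800868490422261880963282456306081354965355493303722291866152029479089630332622136543743887603476790170762464826571419598753284260335194127174070991019311407206248226603477073351806344725510832380381855037856133084619248257526469733036745935083862744572531902101831025853336519627789382097272112212635075762301041562216175911304890653820197551856564519529545720598669898384527302874254915755062844417917541800640010170711870139734392819659972245622783415534261241791455890111307270418901895565117977945648451335947220712878714308572327931549351784913295981217193317450834568232856271616361502189063768892865296556195417641215505827187776109836565193492821704881036898474381851834956852171505665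 >>> (256 * p + 16 * q)) % 65536

def tab (p q r : Fin 16) : Bool := (row p.1 q.1).testBit r.1

def orL (f : ℕ → ℕ) (m : ℕ) : ℕ → ℕ
  | 0 => 0
  | n + 1 => (if m.testBit n then f n else 0) ||| orL f m n

theorem orL_spec (f : ℕ → ℕ) (m x n : ℕ) : (orL f m n).testBit x = true ↔
    ∃ y < n, m.testBit y = true ∧ (f y).testBit x = true := by
  induction n with
  | zero => simp [orL]
  | succ n ih =>
    rw [orL, Nat.testBit_or, Bool.or_eq_true, ih]
    constructor
    · rintro (h | ⟨y, hy, h⟩)
      · by_cases hm : m.testBit n = true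
        · rw [if_pos hm] at h
          exact ⟨n, Nat.lt_succ_self n, hm, h⟩
        · rw [if_neg hm] at h
          simp at h
      · exact ⟨y, Nat.lt_succ_of_lt hy, h⟩
    · rintro ⟨y, hy, h1, h2⟩
      rcases Nat.lt_succ_iff_lt_or_eq.1 hy with h | rfl
      · exact Or.inr ⟨y, h, h1, h2⟩
      · left; rw [if_pos h1]; exact h2

theorem t0 : ∀ p q r : Fin 16,
    orL (row p.1) (row q.1 r.1) 16 = orL (fun y => row y r.1) (row p.1 q.1) 16 := by
  decide +kernel

def st (p : Fin 16) : Fin 16 := Fin.ofNat 16 (10986061794618520080 >>> (4 * p.1))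

def cl (k : ℕ) (s x : Fin 16) : Bool :=
  Nat.testBit 20815864389328798163850480654728171077230524494533409610634908997697959635580199453565448968950278830270089404497792741361556528620787527920646150727910691087626094856717406470808757075028160108692220154496899161167002523391934720167312048941132790556075729907320679498979915071210618102350933393359660047471710794355165036539596539793330795755537318999978978136432089366750267242053633 (256 * k + 16 * s.1 + x.1)

theorem t1 (p q r x : Fin 16) :
    (∃ y, tab q r y = true ∧ tab p y x = true) ↔ ∃ y, tab p q y = true ∧ tab y r x = true := by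
  have h1 := orL_spec (row p.1) (row q.1 r.1) x.1 16
  rw [t0, orL_spec] at h1
  constructor
  · rintro ⟨y, h⟩
    obtain ⟨z, hz, h'⟩ := h1.2 ⟨y.1, y.2, h⟩
    exact ⟨⟨z, hz⟩, h'⟩
  · rintro ⟨y, h⟩
    obtain ⟨z, hz, h'⟩ := h1.1 ⟨y.1, y.2, h⟩
    exact ⟨⟨z, hz⟩, h'⟩

theorem t2 : ∀ s x : Fin 16, (tab s 0 x = true ↔ x = s) ∧ (tab 0 s x = true ↔ x = s) := by
  decide +kernel

theorem t3 : ∀ p q r : Fin 16, tab p q r = true →
    tab (st p) r q = true ∧ tab r (st q) p = true := by
  decide +kernel

theorem t4 : ∀ h : Fin 16, (∀ x y, tab h x y = true ↔ tab x h y = true) →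
    (∀ y, tab (st h) h y = true → y = 0) → h = 0 := by
  decide +kernel

theorem t5 : ∀ k : Fin 4, ∀ s x : Fin 16, cl (k.1 + 1) s x = true → cl k.1 s x = true ∨
    ∃ p q, cl k.1 s p = true ∧ cl k.1 s q = true ∧ tab (st p) q x = true := by
  decide +kernel

theorem t6 : (∀ s x : Fin 16, cl 0 s x = true → x = s) ∧
    ∀ s x : Fin 16, 4 ≤ s.1 → cl 4 s x = true := by
  decide +kernel

theorem t7 : (∀ h x : Fin 16, ∃ y, tab h y x = true) ∧
    (∀ p q x : Fin 16, p.1 < 4 → q.1 < 4 → tab (st p) q x = true → x.1 < 4) ∧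
    (∀ f h x : Fin 16, f.1 < 4 → h.1 < 4 → tab f h x = true → tab h f x = true) ∧
    (∀ t h x : Fin 16, t.1 < 4 → tab t h x = true → ∃ u : Fin 16, u.1 < 4 ∧ tab h u x = true) := by
  decide +kernel

theorem t8 : ∀ t : Fin 16, t.1 < 4 → ∀ h y : Fin 16, tab (st h) t y = true → ∀ x,
    tab y h x = true → x.1 < 4 ∧ (h.1 < 4 → x = t) := by
  decide +kernel

def G0 : Hypergroup (Fin 16) where
  mul p q := {r | tab p q r = true}
  one := 0
  star := st
  h1 p q r := by
    ext x
    simpa [setMul] using t1 p q r x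
  h2 s := by
    ext x
    simpa using (t2 s x).1
  h3 := t3

theorem mem_mul (p q r : Fin 16) : r ∈ G0.mul p q ↔ tab p q r = true := Iff.rfl

theorem closed_univ (F : Set (Fin 16)) (hF : G0.Closed F) (s : Fin 16) (hs : s ∈ F)
    (h4 : 4 ≤ s.1) : F = Set.univ := by
  have key : ∀ k : ℕ, k ≤ 4 → ∀ x, cl k s x = true → x ∈ F := by
    intro k
    induction k with
    | zero => intro _ x hx; rw [t6.1 s x hx]; exact hs
    | succ k ih =>
      intro hk x hx
      rcases t5 ⟨k, hk⟩ s x hx with h | ⟨p, q, hp, hq, h⟩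
      · exact ih (by omega) x h
      · exact hF.2 ⟨st p, ⟨p, ih (by omega) p hp, rfl⟩, q, ih (by omega) q hq, h⟩
  exact Set.eq_univ_of_forall fun x => key 4 le_rfl x (t6.2 s x h4)

theorem chain (R : Set (Fin 16) → Set (Fin 16) → Prop) (h1 : R Set.univ Set.univ)
    (h2 : R {x | x.1 < 4} Set.univ) (h3 : ∀ F ⊆ {x : Fin 16 | x.1 < 4}, R F {x | x.1 < 4})
    (F : Set (Fin 16)) (hF : G0.Closed F) : G0.ChainTo R F := by
  have hu : G0.Closed Set.univ := ⟨⟨0, trivial⟩, Set.subset_univ _⟩
  by_cases h : ∃ s ∈ F, 4 ≤ s.1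
  · obtain ⟨s, hs, h4⟩ := h
    rw [closed_univ F hF s hs h4]
    exact ⟨1, fun _ => Set.univ, le_rfl, rfl, rfl, fun _ _ => hu, fun _ _ => ⟨le_rfl, h1⟩⟩
  · have hT : F ⊆ {x : Fin 16 | x.1 < 4} := fun x hx => by
      by_contra hc
      exact h ⟨x, hx, not_lt.1 hc⟩
    have hc : G0.Closed {x : Fin 16 | x.1 < 4} := by
      refine ⟨⟨0, by simp⟩, ?_⟩
      rintro x ⟨_, ⟨p, hp, rfl⟩, q, hq, hx⟩
      exact t7.2.1 p q x hp hq hx
    refine ⟨2, fun i => if i = 0 then F else if i = 1 then {x | x.1 < 4} else Set.univ,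
      by norm_num, rfl, rfl, ?_, ?_⟩
    · intro i hi
      interval_cases i
      · exact hF
      · exact hc
      · exact hu
    · intro i hi
      interval_cases i
      · exact ⟨hT, h3 F hT⟩
      · exact ⟨Set.subset_univ _, h2⟩

theorem qmul_one (a b : Fin 16) :
    G0.qmul {0} a b = (fun x => ({x} : Set (Fin 16))) '' G0.mul a b ∧
      ∀ h, G0.dc {0} h = {h} := by
  have h1 : ∀ h, G0.dc {0} h = {h} := by
    intro h
    ext x
    simp [Hypergroup.dc, setMul, mem_mul, (t2 _ _).1, (t2 _ _).2]
  refine ⟨?_, h1⟩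
  have h2 : setMul G0.mul (setMul G0.mul {a} {0}) {b} = G0.mul a b := by
    ext x
    simp [setMul, mem_mul, (t2 _ _).1]
  rw [Hypergroup.qmul, h2, funext h1]

theorem ucs_eq (n : ℕ) : G0.ucs n = {0} := by
  induction n with
  | zero => rfl
  | succ n ih =>
    have hinj : Function.Injective fun x : Fin 16 => ({x} : Set (Fin 16)) :=
      Set.singleton_injective
    ext h
    simp only [Hypergroup.ucs, ih, Set.mem_setOf_eq, (qmul_one _ _).1, (qmul_one 0 0).2,
      Set.mem_singleton_iff]
    constructor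
    · rintro ⟨ha, hb⟩
      refine t4 h (fun x y => ?_) fun y hy => ?_
      · have := hinj.image_injective (ha x)
        rw [← mem_mul, ← mem_mul, this]
      · have : ({y} : Set (Fin 16)) ∈ ({{G0.one}} : Set (Set (Fin 16))) :=
          hb ▸ ⟨y, hy, rfl⟩
        exact hinj this
    · rintro rfl
      refine ⟨fun x => ?_, ?_⟩
      · congr 1
        ext y
        rw [mem_mul, mem_mul, (t2 _ _).1, (t2 _ _).2]
      · have : G0.mul (G0.star 0) 0 = {0} := by
          rw [show G0.star 0 = 0 by decide +kernel]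
          exact G0.h2 0
        rw [this, Set.image_singleton]
        rfl

theorem result : ∃ (H : Type) (_ : Finite H) (G : Hypergroup H),
    (∀ F, G.Closed F → G.ChainTo G.NormalIn F ∧ G.ChainTo G.StronglyNormalIn F) ∧
      ∀ n, G.ucs n ≠ Set.univ := by
  refine ⟨Fin 16, inferInstance, G0, fun F hF => ⟨chain _ ?_ ?_ ?_ F hF, chain _ ?_ ?_ ?_ F hF⟩,
    fun n hn => ?_⟩
  · rintro h - x -
    obtain ⟨y, hy⟩ := t7.1 h x
    exact ⟨h, rfl, y, trivial, hy⟩
  · rintro h - x ⟨t, ht, _, rfl, hx⟩
    obtain ⟨u, hu, hx'⟩ := t7.2.2.2 t _ x ht hx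
    exact ⟨_, rfl, u, hu, hx'⟩
  · rintro F hF h hh x ⟨f, hf, _, rfl, hx⟩
    exact ⟨_, rfl, f, hf, t7.2.2.1 f _ x (hF hf) hh hx⟩
  · exact fun _ _ => Set.subset_univ _
  · rintro h - x ⟨y, ⟨_, rfl, t, ht, hy⟩, _, rfl, hx⟩
    exact (t8 t ht _ y hy x hx).1
  · rintro F hF h hh x ⟨y, ⟨_, rfl, t, ht, hy⟩, _, rfl, hx⟩
    rw [(t8 t (hF ht) _ y hy x hx).2 hh]
    exact ht
  · rw [ucs_eq] at hn
    have : (1 : Fin 16) ∈ ({0} : Set (Fin 16)) := hn ▸ trivial
    exact absurd this (by decide)

end Pool.Agent.Results.MP_75e066_al.Counter
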